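import Pool.Agent.Helper16.Pin.RankD
import Pool.Agent.Helper5.Pin.G

/-!
# The Jackson-Jordán condition in terms of vertex sets, for MP_35f203_lc
-/

namespace Pool.Agent.Helper36.Pin

open Finset Module

variable {V : Type} [Fintype V] [DecidableEq V]

namespace ModI

theorem inc_sub (H : SimpleGraph V) (X P S : Finset V) (hPX : P ⊆ X)
    (hcl : ∀ u ∈ X \ P, ∀ v, H.Adj u v → v ∈ X) (hS : S ⊆ X \ P) :
    inc H S ⊆ edges H ∩ X.sym2 := by
  intro e
  induction e using Sym2.ind with
  | _ u v =>
    rw [mem_inc_mk, mem_inter, mem_edges_mk, mk_mem_sym2]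
    rintro ⟨h, hu | hv⟩
    · exact ⟨h, (mem_sdiff.mp (hS hu)).1, hcl u (hS hu) v h⟩
    · exact ⟨h, hcl v (hS hv) u h.symm, (mem_sdiff.mp (hS hv)).1⟩

/-- the rank of the edges of a complete graph on `P` -/
theorem rk_clique (H : SimpleGraph V) : ∀ (n : ℕ) (P : Finset V), P.card = n → 2 ≤ n →
    (∀ u ∈ P, ∀ v ∈ P, u ≠ v → H.Adj u v) → 2 * n ≤ rk (edges H ∩ P.sym2) + 3 := by
  intro n
  induction n with
  | zero => intro P _ h; omega
  | succ n ih =>
    intro P hc h2 hK
    by_cases hn : n = 1
    · subst hn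
      obtain ⟨a, b, hab, rfl⟩ := Finset.card_eq_two.mp hc
      have h1 : ({s(a, b)} : Finset (Sym2 V)) ⊆ edges H ∩ ({a, b} : Finset V).sym2 := by
        rw [Finset.singleton_subset_iff, mem_inter, mem_edges_mk, mk_mem_sym2]
        exact ⟨hK a (by simp) b (by simp) hab, by simp, by simp⟩
      have h3 := rk_mono h1
      rw [rk_singleton hab] at h3
      omega
    · obtain ⟨v, hv⟩ : P.Nonempty := Finset.card_pos.mp (by omega)
      have hc' : (P.erase v).card = n := by rw [Finset.card_erase_of_mem hv]; omega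
      have hlt : 1 < (P.erase v).card := by omega
      obtain ⟨x, hx, y, hy, hxy⟩ := Finset.one_lt_card.mp hlt
      have hvx : v ≠ x := fun h => (Finset.ne_of_mem_erase hx) h.symm
      have hvy : v ≠ y := fun h => (Finset.ne_of_mem_erase hy) h.symm
      have hxP := Finset.mem_of_mem_erase hx
      have hyP := Finset.mem_of_mem_erase hy
      have h1 := ih (P.erase v) hc' (by omega) (fun u hu w hw huw =>
        hK u (Finset.mem_of_mem_erase hu) w (Finset.mem_of_mem_erase hw) huw)
      have h2 := rk_zero_ext (edges H ∩ (P.erase v).sym2) v x y (by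
        intro e he hve
        rw [mem_inter] at he
        have := (Finset.mem_sym2_iff.mp he.2) v hve
        exact (Finset.notMem_erase v P) this) hvx hvy hxy
      have h3 : insert s(v, x) (insert s(v, y) (edges H ∩ (P.erase v).sym2)) ⊆
          edges H ∩ P.sym2 := by
        intro e he
        rw [mem_insert, mem_insert] at he
        rcases he with rfl | rfl | he
        · rw [mem_inter, mem_edges_mk, mk_mem_sym2]
          exact ⟨hK v hv x hxP hvx, hv, hxP⟩
        · rw [mem_inter, mem_edges_mk, mk_mem_sym2]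
          exact ⟨hK v hv y hyP hvy, hv, hyP⟩
        · rw [mem_inter] at he ⊢
          exact ⟨he.1, Finset.sym2_mono (Finset.erase_subset v P) he.2⟩
      have h4 := rk_mono h3
      omega

/-- the same after deletion of one edge -/
theorem rk_clique_erase (H : SimpleGraph V) (P : Finset V) (hc : 4 ≤ P.card)
    (hK : ∀ u ∈ P, ∀ v ∈ P, u ≠ v → H.Adj u v) (e : Sym2 V) :
    2 * P.card ≤ rk ((edges H).erase e ∩ P.sym2) + 3 := by
  by_cases he : e ∈ P.sym2 ∧ ¬ e.IsDiag
  · induction e using Sym2.ind with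
    | _ u v =>
      obtain ⟨h1, h2⟩ := he
      rw [mk_mem_sym2] at h1
      obtain ⟨hu, hv⟩ := h1
      have huv : u ≠ v := fun h => h2 (by rw [h]; exact Sym2.mk_isDiag_iff.mpr rfl)
      have hc1 : (P.erase v).card = P.card - 1 := Finset.card_erase_of_mem hv
      have hu' : u ∈ P.erase v := Finset.mem_erase.mpr ⟨huv, hu⟩
      have hc2 : ((P.erase v).erase u).card = P.card - 1 - 1 := by
        rw [Finset.card_erase_of_mem hu', hc1]
      obtain ⟨x, hx, y, hy, hxy⟩ := Finset.one_lt_card.mp
        (show 1 < ((P.erase v).erase u).card by omega)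
      rw [Finset.mem_erase, Finset.mem_erase] at hx hy
      obtain ⟨hxu, hxv, hxP⟩ := hx
      obtain ⟨hyu, hyv, hyP⟩ := hy
      have h1 := rk_clique H (P.card - 1) (P.erase v) hc1 (by omega) (fun u hu w hw huw =>
        hK u (Finset.mem_of_mem_erase hu) w (Finset.mem_of_mem_erase hw) huw)
      have h2 := rk_zero_ext (edges H ∩ (P.erase v).sym2) v x y (by
        intro e he hve
        rw [mem_inter] at he
        have := (Finset.mem_sym2_iff.mp he.2) v hve
        exact (Finset.notMem_erase v P) this) hxv.symm hyv.symm hxy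
      have h3 : insert s(v, x) (insert s(v, y) (edges H ∩ (P.erase v).sym2)) ⊆
          (edges H).erase s(u, v) ∩ P.sym2 := by
        intro e he
        rw [mem_insert, mem_insert] at he
        rcases he with rfl | rfl | he
        · rw [mem_inter, mem_erase, mem_edges_mk, mk_mem_sym2]
          refine ⟨⟨?_, hK v hv x hxP hxv.symm⟩, hv, hxP⟩
          rw [Ne, Sym2.eq_iff]
          rintro (⟨h, -⟩ | ⟨-, h⟩)
          · exact huv h.symm
          · exact hxu h
        · rw [mem_inter, mem_erase, mem_edges_mk, mk_mem_sym2]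
          refine ⟨⟨?_, hK v hv y hyP hyv.symm⟩, hv, hyP⟩
          rw [Ne, Sym2.eq_iff]
          rintro (⟨h, -⟩ | ⟨-, h⟩)
          · exact huv h.symm
          · exact hyu h
        · rw [mem_inter] at he
          rw [mem_inter, mem_erase]
          refine ⟨⟨?_, he.1⟩, Finset.sym2_mono (Finset.erase_subset v P) he.2⟩
          rintro rfl
          have := (mk_mem_sym2.mp he.2).2
          exact (Finset.notMem_erase v P) this
      have h4 := rk_mono h3
      omega
  · have h1 := rk_clique H P.card P rfl (by omega) hK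
    have h2 : edges H ∩ P.sym2 ⊆ (edges H).erase e ∩ P.sym2 := by
      intro f hf
      rw [mem_inter] at hf
      rw [mem_inter, mem_erase]
      refine ⟨⟨?_, hf.1⟩, hf.2⟩
      rintro rfl
      exact he ⟨hf.2, H.not_isDiag_of_mem_edgeSet (mem_edges.mp hf.1)⟩
    have h3 := rk_mono h2
    omega

/-- the main lower bound -/
theorem rk_lower (H : SimpleGraph V) (X P : Finset V) (hX : 4 ≤ X.card) (hPX : P ⊆ X)
    (hP : P.card = 2 ∨ 4 ≤ P.card) (hK : ∀ u ∈ P, ∀ v ∈ P, u ≠ v → H.Adj u v)
    (hcl : ∀ u ∈ X \ P, ∀ v, H.Adj u v → v ∈ X)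
    (hf : ∀ S ⊆ X \ P, S.Nonempty → 2 * S.card + 1 ≤ rk (inc H S)) (e : Sym2 V) :
    2 * X.card ≤ rk ((edges H ∩ X.sym2).erase e) + 3 := by
  classical
  set F := (edges H ∩ X.sym2).erase e with hF
  obtain ⟨𝒳, h𝒳⟩ := exists_comps F
  -- either `F` contains all edges at `X \ P` or `P` is inside one component
  have key : (2 * X.card ≤ rk F + 3) ∨ ∃ X₁ ∈ 𝒳, P ⊆ X₁ := by
    rcases hP with hP | hP
    · obtain ⟨a, b, hab, hPab⟩ := Finset.card_eq_two.mp hP
      have haP : a ∈ P := by rw [hPab]; simp
      have hbP : b ∈ P := by rw [hPab]; simp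
      by_cases he : e = s(a, b)
      · left
        have h1 : inc H (X \ P) ⊆ F := by
          intro f hf'
          have h2 := inc_sub H X P (X \ P) hPX hcl le_rfl hf'
          rw [hF, mem_erase]
          refine ⟨?_, h2⟩
          rintro rfl
          rw [he, mem_inc_mk] at hf'
          rcases hf'.2 with h | h
          · exact (mem_sdiff.mp h).2 haP
          · exact (mem_sdiff.mp h).2 hbP
        have h2 := Finset.card_sdiff_add_card_eq_card hPX
        have h3 := hf (X \ P) le_rfl (Finset.card_pos.mp (by omega))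
        have h4 := rk_mono h1
        omega
      · right
        have h1 : s(a, b) ∈ F := by
          rw [hF, mem_erase, mem_inter, mem_edges_mk, mk_mem_sym2]
          exact ⟨fun h => he h.symm, hK a haP b hbP hab, hPX haP, hPX hbP⟩
        obtain ⟨X₁, hX₁, h2⟩ := h𝒳.cover _ h1 (fun h => hab (Sym2.mk_isDiag_iff.mp h))
        rw [mk_mem_sym2] at h2
        refine ⟨X₁, hX₁, ?_⟩
        rw [hPab]
        intro x hx
        rw [mem_insert, mem_singleton] at hx
        rcases hx with rfl | rfl
        · exact h2.1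
        · exact h2.2
    · right
      have h1 := rk_clique_erase H P hP hK e
      have h2 : (edges H).erase e ∩ P.sym2 ⊆ F ∩ P.sym2 := by
        intro f hf'
        rw [mem_inter, mem_erase] at hf'
        rw [mem_inter, hF, mem_erase, mem_inter]
        exact ⟨⟨hf'.1.1, hf'.1.2, Finset.sym2_mono hPX hf'.2⟩, hf'.2⟩
      have h3 := rk_mono h2
      exact h𝒳.maximal P (by omega) (by omega)
  rcases key with h | ⟨X₁, hX₁, hPX₁⟩
  · exact h
  have hcard := Finset.card_sdiff_add_card_inter X X₁
  have hint : (X ∩ X₁).card ≤ X₁.card := Finset.card_le_card Finset.inter_subset_right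
  have hrig := h𝒳.rigid X₁ hX₁
  have h2X₁ := h𝒳.two_le X₁ hX₁
  by_cases hSe : (X \ X₁).Nonempty
  · have hSP : X \ X₁ ⊆ X \ P := Finset.sdiff_subset_sdiff le_rfl hPX₁
    have h1 := hf (X \ X₁) hSP hSe
    have h2 : rk (inc H (X \ X₁)) ≤ rk ((inc H (X \ X₁)).erase e) + 1 := by
      refine le_trans ?_ (rk_insert_le ((inc H (X \ X₁)).erase e) e)
      exact rk_mono (Finset.insert_erase_subset e _)
    have h3 : rk ((inc H (X \ X₁)).erase e) ≤ ∑ Y ∈ 𝒳.erase X₁, (2 * Y.card - 3) := by
      apply rk_le_cover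
      · intro Y hY
        exact h𝒳.two_le Y (Finset.mem_of_mem_erase hY)
      · intro f hf' hfd
        rw [mem_erase] at hf'
        have h4 : f ∈ F := by
          rw [hF, mem_erase]
          exact ⟨hf'.1, inc_sub H X P _ hPX hcl hSP hf'.2⟩
        obtain ⟨Y, hY, hfY⟩ := h𝒳.cover f h4 hfd
        refine ⟨Y, Finset.mem_erase.mpr ⟨?_, hY⟩, hfY⟩
        rintro rfl
        obtain ⟨-, v, hv, hvf⟩ := mem_inc.mp hf'.2
        exact (mem_sdiff.mp hv).2 (Finset.mem_sym2_iff.mp hfY v hvf)
    have h4 := h𝒳.sum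
    rw [← Finset.add_sum_erase _ _ hX₁] at h4
    omega
  · rw [Finset.not_nonempty_iff_eq_empty] at hSe
    rw [hSe, Finset.card_empty] at hcard
    have h1 : rk (F ∩ X₁.sym2) ≤ rk F := rk_mono Finset.inter_subset_left
    omega

end ModI

open ModI in
theorem gr_iff_of
    (tight_false : ∀ (G : SimpleGraph V) (X S : Finset V) (_ : S.Nonempty)
    (_ : S.card + 2 ≤ X.card)
    (_ : ∀ S' ⊆ S, S'.Nonempty → S' ∪ nbr G S' = X ∨ 3 ≤ (nbr G S').card)
    (_ : rk (inc G S) = 2 * S.card)
    (_ : ∀ e ∈ inc G S, rk ((inc G S).erase e) = 2 * S.card), False)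
    (H : SimpleGraph V) (X P : Finset V) (hX : 4 ≤ X.card) (hPX : P ⊆ X)
    (hP : P.card = 2 ∨ 4 ≤ P.card) (hK : ∀ u ∈ P, ∀ v ∈ P, u ≠ v → H.Adj u v)
    (hcl : ∀ u ∈ X \ P, ∀ v, H.Adj u v → v ∈ X) :
    GR H X ↔ ∀ S ⊆ X \ P, S.Nonempty →
      2 * S.card + 1 ≤ rk (inc H S) ∧ (S ∪ nbr H S = X ∨ 3 ≤ (nbr H S).card) := by
  classical
  have hup : ∀ F : Finset (Sym2 V), F ⊆ X.sym2 → rk F + 3 ≤ 2 * X.card := fun F hF =>
    rk_inside_le F X (by omega) hF
  constructor
  · rintro ⟨h3, hr, hred⟩ S hS hSn
    have h3' := (threeConn_iff H X P hPX hK hcl).mp h3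
    refine ⟨?_, h3'.2 S hS hSn⟩
    have hsub := inc_sub H X P S hPX hcl hS
    have hSX : S ⊆ X := hS.trans Finset.sdiff_subset
    have hPS : P ⊆ X \ S := by
      intro x hx
      rw [mem_sdiff]
      exact ⟨hPX hx, fun h => (mem_sdiff.mp (hS h)).2 hx⟩
    have hPSc := Finset.card_le_card hPS
    have hXS := Finset.card_sdiff_add_card_eq_card hSX
    have hP2 : 2 ≤ P.card := by omega
    -- deletion of an edge
    have hdel : ∀ e ∈ inc H S, 2 * S.card ≤ rk ((inc H S).erase e) := by
      intro e he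
      have h1 := hred e (hsub he)
      have h2 : (edges H ∩ X.sym2).erase e ⊆
          (inc H S).erase e ∪ (edges H ∩ (X \ S).sym2) := by
        intro f hf
        rw [mem_erase] at hf
        rw [mem_union, mem_erase]
        by_cases hfS : f ∈ inc H S
        · exact Or.inl ⟨hf.1, hfS⟩
        · right
          rw [mem_inter] at hf ⊢
          refine ⟨hf.2.1, ?_⟩
          rw [Finset.mem_sym2_iff]
          intro v hv
          rw [mem_sdiff]
          refine ⟨Finset.mem_sym2_iff.mp hf.2.2 v hv, fun hvS => hfS ?_⟩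
          rw [mem_inc]
          exact ⟨mem_edges.mp hf.2.1, v, hvS, hv⟩
      have h4 := (rk_mono h2).trans (rk_union_le _ _)
      have h5 := rk_inside_le (edges H ∩ (X \ S).sym2) (X \ S) (by omega)
        Finset.inter_subset_right
      omega
    -- there is an edge
    have hne : (inc H S).Nonempty := by
      obtain ⟨v, hv⟩ := hSn
      have h1 := h3'.2 {v} (by rw [Finset.singleton_subset_iff]; exact hS hv)
        (Finset.singleton_nonempty v)
      have h2 : (nbr H {v}).Nonempty := by
        rcases h1 with h1 | h1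
        · rw [Finset.nonempty_iff_ne_empty]
          intro h
          rw [h, Finset.union_empty] at h1
          rw [← h1, Finset.card_singleton] at hX
          omega
        · exact Finset.card_pos.mp (by omega)
      obtain ⟨w, hw⟩ := h2
      rw [mem_nbr] at hw
      obtain ⟨-, u, hu, huw⟩ := hw
      rw [mem_singleton] at hu
      subst hu
      exact ⟨s(u, w), mem_inc_mk.mpr ⟨huw, Or.inl hv⟩⟩
    obtain ⟨e₀, he₀⟩ := hne
    have h5 : 2 * S.card ≤ rk (inc H S) :=
      (hdel e₀ he₀).trans (rk_mono (Finset.erase_subset _ _))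
    by_contra hlt
    have h6 : rk (inc H S) = 2 * S.card := by omega
    refine tight_false H X S hSn (by omega) (fun S' hS' hn => h3'.2 S' (hS'.trans hS) hn) h6 ?_
    intro e he
    have h7 := hdel e he
    have h8 : rk ((inc H S).erase e) ≤ rk (inc H S) := rk_mono (Finset.erase_subset _ _)
    omega
  · intro hf
    have hlow := rk_lower H X P hX hPX hP hK hcl (fun S hS hn => (hf S hS hn).1)
    refine ⟨(threeConn_iff H X P hPX hK hcl).mpr ⟨hX, fun S hS hn => (hf S hS hn).2⟩, ?_, ?_⟩
    · have h1 : ∃ v, v ∈ X := Finset.card_pos.mp (by omega)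
      obtain ⟨v, -⟩ := h1
      have h2 := hlow s(v, v)
      have h3 := rk_mono (Finset.erase_subset s(v, v) (edges H ∩ X.sym2))
      have h4 := hup (edges H ∩ X.sym2) Finset.inter_subset_right
      omega
    · intro e he
      have h2 := hlow e
      have h4 := hup ((edges H ∩ X.sym2).erase e)
        ((Finset.erase_subset _ _).trans Finset.inter_subset_right)
      omega

end Pool.Agent.Helper36.Pin
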