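import Mathlib

/-!
# Rank of a sum of wedges (linear matroid parity), for MP_35f203_lc
-/

namespace Pool.Agent.Helper36.Pin

open Finset Module

namespace ModB

section abstract

variable {K : Type} [Field K] {ι : Type} [DecidableEq ι]

/-- the alternating form `∑ a_v0 ∧ a_v1` -/
noncomputable def form {V : Type} [AddCommGroup V] [Module K V] (U : Finset ι)
    (a : ι → Fin 2 → V →ₗ[K] K) : V →ₗ[K] V →ₗ[K] K :=
  ∑ v ∈ U, ((a v 0).smulRight (a v 1) - (a v 1).smulRight (a v 0))

theorem form_apply {V : Type} [AddCommGroup V] [Module K V] (U : Finset ι)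
    (a : ι → Fin 2 → V →ₗ[K] K) (x y : V) :
    form U a x y = ∑ v ∈ U, (a v 0 x * a v 1 y - a v 1 x * a v 0 y) := by
  unfold form
  rw [LinearMap.sum_apply, LinearMap.sum_apply]
  refine Finset.sum_congr rfl fun v _ => ?_
  simp

theorem form_self {V : Type} [AddCommGroup V] [Module K V] (U : Finset ι)
    (a : ι → Fin 2 → V →ₗ[K] K) (x : V) : form U a x x = 0 := by
  rw [form_apply]
  exact Finset.sum_eq_zero fun v _ => by ring

theorem form_swap {V : Type} [AddCommGroup V] [Module K V] (U : Finset ι)
    (a : ι → Fin 2 → V →ₗ[K] K) (x y : V) : form U a x y = - form U a y x := by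
  rw [form_apply, form_apply, ← Finset.sum_neg_distrib]
  exact Finset.sum_congr rfl fun v _ => by ring

/-- Adding a wedge whose first factor vanishes on the radical does not increase the rank. -/
theorem ker_le {V : Type} [AddCommGroup V] [Module K V] [FiniteDimensional K V]
    (B' B : V →ₗ[K] V →ₗ[K] K) (hself : ∀ x, B' x x = 0) (hswap : ∀ x y, B' x y = - B' y x)
    (a b : V →ₗ[K] K) (hB : ∀ x y, B x y = B' x y + (a x * b y - b x * a y))
    (ha : ∀ x ∈ LinearMap.ker B', a x = 0) :
    finrank K (LinearMap.ker B') ≤ finrank K (LinearMap.ker B) := by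
  classical
  by_cases ha0 : a = 0
  · have : B = B' := by
      ext x y
      rw [hB, ha0]
      simp
    rw [this]
  by_cases hb : ∀ x ∈ LinearMap.ker B', b x = 0
  · apply Submodule.finrank_mono
    intro x hx
    rw [LinearMap.mem_ker] at hx ⊢
    ext y
    rw [hB, hx, ha x hx, hb x hx]
    simp
  push Not at hb
  obtain ⟨x₀, hx₀, hbx₀⟩ := hb
  -- `a` is in the range of `B'`
  obtain ⟨w, hw⟩ : ∃ w, ∀ x, a x = B' x w := by
    have h1 : a ∈ (LinearMap.ker B').dualAnnihilator := by
      rw [Submodule.mem_dualAnnihilator]
      exact ha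
    rw [← LinearMap.range_dualMap_eq_dualAnnihilator_ker, LinearMap.mem_range] at h1
    obtain ⟨Ψ, hΨ⟩ := h1
    obtain ⟨w, hw⟩ := (Module.evalEquiv K V).surjective Ψ
    refine ⟨w, fun x => ?_⟩
    rw [← hΨ, LinearMap.dualMap_apply, ← hw, Module.evalEquiv_apply]
    rfl
  set x₁ : V := w - ((1 + b w) / b x₀) • x₀ with hx₁
  have hx₀' : B' x₀ = 0 := hx₀
  have hwy : ∀ y, B' w y = - a y := by
    intro y
    rw [hswap, hw]
  have haw : a w = 0 := by rw [hw, hself]
  have hax₀ : a x₀ = 0 := ha x₀ hx₀
  have hB'x₁ : ∀ y, B' x₁ y = - a y := by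
    intro y
    rw [hx₁, map_sub, map_smul, LinearMap.sub_apply, LinearMap.smul_apply, hx₀', hwy]
    simp
  have hax₁ : a x₁ = 0 := by
    rw [hx₁, map_sub, map_smul, haw, hax₀]
    simp
  have hbx₁ : b x₁ = -1 := by
    rw [hx₁, map_sub, map_smul, smul_eq_mul, div_mul_cancel₀ _ hbx₀]
    ring
  have hx₁B : x₁ ∈ LinearMap.ker B := by
    rw [LinearMap.mem_ker]
    ext y
    rw [hB, hB'x₁, hax₁, hbx₁]
    simp
  have hx₁B' : x₁ ∉ LinearMap.ker B' := by
    intro h
    apply ha0
    ext y
    rw [LinearMap.mem_ker] at h
    have h0 := hB'x₁ y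
    rw [h, LinearMap.zero_apply] at h0
    rw [LinearMap.zero_apply]
    exact neg_eq_zero.mp h0.symm
  -- the codimension one subspace
  set N : Submodule K V := LinearMap.ker B' ⊓ LinearMap.ker b with hN
  have hNB : N ≤ LinearMap.ker B := by
    intro x hx
    obtain ⟨h1, h2⟩ := hx
    have h1' : B' x = 0 := h1
    have h2' : b x = 0 := h2
    rw [LinearMap.mem_ker]
    ext y
    rw [hB, h1', h2', ha x h1]
    simp
  have hlt : N < LinearMap.ker B := by
    refine lt_of_le_of_ne hNB fun h => ?_
    rw [← h] at hx₁B
    exact hx₁B' hx₁B.1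
  have h1 : finrank K N < finrank K (LinearMap.ker B) := Submodule.finrank_lt_finrank_of_lt hlt
  have h2 : finrank K (LinearMap.ker B') ≤ finrank K N + 1 := by
    have h3 := Submodule.finrank_sup_add_finrank_inf_eq (LinearMap.ker B') (LinearMap.ker b)
    have h4 := LinearMap.finrank_range_add_finrank_ker b
    have h5 : finrank K (LinearMap.range b) ≤ 1 := by
      have := Submodule.finrank_le (LinearMap.range b)
      rwa [Module.finrank_self] at this
    have h6 := Submodule.finrank_le (LinearMap.ker B' ⊔ LinearMap.ker b)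
    rw [← hN] at h3
    omega
  omega

/-- Independence of a family of pairs, in elementary terms. -/
def Ind {V : Type} [AddCommGroup V] [Module K V] (Z : Finset ι) (a : ι → Fin 2 → V) : Prop :=
  ∀ g : ι → Fin 2 → K, ∑ i ∈ Z, (g i 0 • a i 0 + g i 1 • a i 1) = 0 → ∀ i ∈ Z, ∀ j, g i j = 0

theorem ind_iff {V : Type} [AddCommGroup V] [Module K V] (Z : Finset ι) (a : ι → Fin 2 → V) :
    Ind (K := K) Z a ↔ LinearIndependent K (fun i : Z × Fin 2 => a i.1 i.2) := by
  classical
  rw [Fintype.linearIndependent_iff]
  have key : ∀ g : ι → Fin 2 → K, ∑ i ∈ Z, (g i 0 • a i 0 + g i 1 • a i 1) =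
      ∑ i : Z × Fin 2, g i.1 i.2 • a i.1 i.2 := by
    intro g
    rw [Fintype.sum_prod_type, ← Finset.sum_coe_sort Z]
    refine Finset.sum_congr rfl fun i _ => ?_
    rw [Fin.sum_univ_two]
  constructor
  · intro h g hg
    set g' : ι → Fin 2 → K := fun i j => if hi : i ∈ Z then g (⟨i, hi⟩, j) else 0 with hg'
    have h1 : ∀ i : Z × Fin 2, g' i.1 i.2 = g i := by
      rintro ⟨⟨i, hi⟩, j⟩
      simp [hg', hi]
    have h2 := h g' (by rw [key]; simp only [h1]; exact hg)
    rintro ⟨⟨i, hi⟩, j⟩
    rw [← h1]
    exact h2 i hi j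
  · intro h g hg i hi j
    exact h (fun i => g i.1 i.2) (by rw [← key]; exact hg) (⟨i, hi⟩, j)

theorem abstract_upper (U : Finset ι) : ∀ (V : Type) [AddCommGroup V] [Module K V]
    [FiniteDimensional K V] (a : ι → Fin 2 → V →ₗ[K] K), ∃ Z ⊆ U, Ind (K := K) Z a ∧
      finrank K V ≤ finrank K (LinearMap.ker (form U a)) + 2 * Z.card := by
  classical
  induction U using Finset.induction_on with
  | empty =>
    intro V _ _ _ a
    refine ⟨∅, le_rfl, fun g _ i hi => absurd hi (Finset.notMem_empty i), ?_⟩
    have : form (∅ : Finset ι) a = 0 := by simp [form]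
    rw [this, LinearMap.ker_zero, finrank_top]
    simp
  | insert u U' hu ih =>
    intro V _ _ _ a
    set B' := form U' a with hB'
    set B := form (insert u U') a with hB
    have hBB : ∀ x y, B x y = B' x y + (a u 0 x * a u 1 y - a u 1 x * a u 0 y) := by
      intro x y
      rw [hB, hB', form_apply, form_apply, Finset.sum_insert hu, add_comm]
    by_cases hs : ∀ c₀ c₁ : K, ∃ x ∈ LinearMap.ker B', a u 0 x = c₀ ∧ a u 1 x = c₁
    · -- restrict to the common kernel
      set V₁ : Submodule K V := LinearMap.ker (a u 0) ⊓ LinearMap.ker (a u 1) with hV₁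
      set a₁ : ι → Fin 2 → V₁ →ₗ[K] K := fun i j => (a i j).comp V₁.subtype with ha₁
      obtain ⟨Z', hZ', hI, hf⟩ := ih V₁ a₁
      have huZ : u ∉ Z' := fun h => hu (hZ' h)
      refine ⟨insert u Z', Finset.insert_subset_insert u hZ', ?_, ?_⟩
      · intro g hg
        rw [Finset.sum_insert huZ] at hg
        have h1 : ∀ i ∈ Z', ∀ j, g i j = 0 := by
          apply hI
          ext ⟨x, hx⟩
          have h2 := congrArg (fun f : V →ₗ[K] K => f x) hg
          have hx0 : a u 0 x = 0 := hx.1
          have hx1 : a u 1 x = 0 := hx.2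
          simp only [LinearMap.add_apply, LinearMap.smul_apply, hx0, hx1, smul_zero, zero_add,
            LinearMap.zero_apply, LinearMap.sum_apply] at h2
          simp only [LinearMap.sum_apply, LinearMap.add_apply, LinearMap.smul_apply, ha₁,
            LinearMap.comp_apply, Submodule.subtype_apply, LinearMap.zero_apply]
          exact h2
        have h3 : ∑ i ∈ Z', (g i 0 • a i 0 + g i 1 • a i 1) = 0 :=
          Finset.sum_eq_zero fun i hi => by rw [h1 i hi 0, h1 i hi 1]; simp
        rw [h3, add_zero] at hg
        obtain ⟨x, -, hx0, hx1⟩ := hs 1 0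
        obtain ⟨y, -, hy0, hy1⟩ := hs 0 1
        have h4 := congrArg (fun f : V →ₗ[K] K => f x) hg
        have h5 := congrArg (fun f : V →ₗ[K] K => f y) hg
        simp only [LinearMap.add_apply, LinearMap.smul_apply, hx0, hx1, hy0, hy1, smul_eq_mul,
          mul_one, mul_zero, add_zero, zero_add, LinearMap.zero_apply] at h4 h5
        intro i hi j
        rcases Finset.mem_insert.mp hi with rfl | hi
        · fin_cases j
          · exact h4
          · exact h5
        · exact h1 i hi j
      · have hker : (LinearMap.ker (form U' a₁)).map V₁.subtype ≤ LinearMap.ker B := by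
          rintro _ ⟨⟨x, hx⟩, hxk, rfl⟩
          have hx0 : a u 0 x = 0 := hx.1
          have hx1 : a u 1 x = 0 := hx.2
          have h1 : ∀ y, B' x y = 0 := by
            intro y
            obtain ⟨y₀, hy₀, h2, h3⟩ := hs (a u 0 y) (a u 1 y)
            have hy₀' : B' y₀ = 0 := hy₀
            have hmem : y - y₀ ∈ V₁ := by
              refine ⟨?_, ?_⟩
              · show a u 0 (y - y₀) = 0
                rw [map_sub, h2, sub_self]
              · show a u 1 (y - y₀) = 0
                rw [map_sub, h3, sub_self]
            have h4 : form U' a₁ ⟨x, hx⟩ ⟨y - y₀, hmem⟩ = 0 := by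
              have : form U' a₁ ⟨x, hx⟩ = 0 := hxk
              rw [this]; rfl
            have h5 : form U' a₁ ⟨x, hx⟩ ⟨y - y₀, hmem⟩ = B' x (y - y₀) := by
              rw [form_apply, hB', form_apply]
              rfl
            have h6 : B' x y₀ = 0 := by
              rw [hB', form_swap, ← hB', hy₀']
              simp
            have h7 : B' x y = B' x (y - y₀) + B' x y₀ := by
              rw [← map_add, sub_add_cancel]
            rw [h7, ← h5, h4, h6, add_zero]
          rw [LinearMap.mem_ker]
          ext y
          show B x y = _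
          rw [hBB, h1 y, hx0, hx1]
          simp
        have h2 : finrank K (LinearMap.ker (form U' a₁)) ≤ finrank K (LinearMap.ker B) := by
          rw [LinearEquiv.finrank_eq (Submodule.equivMapOfInjective V₁.subtype
            (Submodule.subtype_injective V₁) (LinearMap.ker (form U' a₁)))]
          exact Submodule.finrank_mono hker
        have h3 : finrank K V ≤ finrank K V₁ + 2 := by
          have e1 := Submodule.finrank_sup_add_finrank_inf_eq (LinearMap.ker (a u 0))
            (LinearMap.ker (a u 1))
          have e2 := LinearMap.finrank_range_add_finrank_ker (a u 0)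
          have e3 := LinearMap.finrank_range_add_finrank_ker (a u 1)
          have e4 : finrank K (LinearMap.range (a u 0)) ≤ 1 := by
            have := Submodule.finrank_le (LinearMap.range (a u 0))
            rwa [Module.finrank_self] at this
          have e5 : finrank K (LinearMap.range (a u 1)) ≤ 1 := by
            have := Submodule.finrank_le (LinearMap.range (a u 1))
            rwa [Module.finrank_self] at this
          have e6 := Submodule.finrank_le (LinearMap.ker (a u 0) ⊔ LinearMap.ker (a u 1))
          rw [← hV₁] at e1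
          omega
        rw [Finset.card_insert_of_notMem huZ]
        omega
    · -- the rank does not increase
      obtain ⟨Z', hZ', hI, hf⟩ := ih V a
      refine ⟨Z', hZ'.trans (Finset.subset_insert u U'), hI, ?_⟩
      suffices h : finrank K (LinearMap.ker B') ≤ finrank K (LinearMap.ker B) by
        rw [← hB'] at hf
        omega
      -- a relation on the radical
      set L : LinearMap.ker B' →ₗ[K] (K × K) :=
        ((a u 0).comp (LinearMap.ker B').subtype).prod ((a u 1).comp (LinearMap.ker B').subtype)
        with hL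
      have hne : LinearMap.range L ≠ ⊤ := by
        intro h
        apply hs
        intro c₀ c₁
        have : (c₀, c₁) ∈ LinearMap.range L := by rw [h]; trivial
        obtain ⟨x, hx⟩ := this
        refine ⟨x, x.2, ?_, ?_⟩
        · exact congrArg Prod.fst hx
        · exact congrArg Prod.snd hx
      obtain ⟨f, hf0, hfr⟩ := Submodule.exists_le_ker_of_lt_top _ (lt_top_iff_ne_top.mpr hne)
      set α := f (1, 0) with hα
      set β := f (0, 1) with hβ
      have hfe : ∀ c₀ c₁ : K, f (c₀, c₁) = c₀ * α + c₁ * β := by
        intro c₀ c₁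
        have : ((c₀, c₁) : K × K) = c₀ • (1, 0) + c₁ • (0, 1) := by
          simp
        rw [this, map_add, map_smul, map_smul]
        rfl
      have hrel : ∀ x ∈ LinearMap.ker B', a u 0 x * α + a u 1 x * β = 0 := by
        intro x hx
        have : L ⟨x, hx⟩ ∈ LinearMap.ker f := hfr ⟨⟨x, hx⟩, rfl⟩
        rw [LinearMap.mem_ker] at this
        rw [← hfe]
        exact this
      by_cases hα0 : α = 0
      · have hβ0 : β ≠ 0 := by
          intro h
          apply hf0
          ext
          · simpa [hα] using hα0
          · simpa [hβ] using h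
        refine ker_le B' B (form_self U' a) (form_swap U' a) (-(a u 1)) (a u 0) ?_ ?_
        · intro x y
          rw [hBB]
          simp only [LinearMap.neg_apply]
          ring
        · intro x hx
          have := hrel x hx
          rw [hα0, mul_zero, zero_add] at this
          rcases mul_eq_zero.mp this with h | h
          · rw [LinearMap.neg_apply, h, neg_zero]
          · exact absurd h hβ0
      · refine ker_le B' B (form_self U' a) (form_swap U' a) (a u 0 + (β / α) • a u 1) (a u 1)
          ?_ ?_
        · intro x y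
          rw [hBB]
          simp only [LinearMap.add_apply, LinearMap.smul_apply, smul_eq_mul]
          ring
        · intro x hx
          have := hrel x hx
          simp only [LinearMap.add_apply, LinearMap.smul_apply, smul_eq_mul]
          field_simp
          linear_combination this

end abstract

end ModB

open ModB

theorem parity_upper {K m ι : Type} [Field K] [Fintype m] [DecidableEq m] [DecidableEq ι]
    (U : Finset ι) (a : ι → Fin 2 → m → K) :
    ∃ Z ⊆ U, LinearIndependent K (fun i : Z × Fin 2 => a i.1 i.2) ∧
      (∑ v ∈ U, (Matrix.vecMulVec (a v 0) (a v 1) -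
        Matrix.vecMulVec (a v 1) (a v 0))).rank ≤ 2 * Z.card := by
  classical
  let a' : ι → Fin 2 → (m → K) →ₗ[K] K := fun i j => dotProductBilin K K (a i j)
  obtain ⟨Z, hZ, hI, hf⟩ := abstract_upper U (m → K) a'
  have ha' : ∀ i j x, a' i j x = a i j ⬝ᵥ x := fun i j x => rfl
  refine ⟨Z, hZ, ?_, ?_⟩
  · rw [← ind_iff]
    intro g hg
    apply hI
    refine LinearMap.ext fun x => ?_
    have h1 := congrArg (fun w : m → K => w ⬝ᵥ x) hg
    simp only [sum_dotProduct, add_dotProduct, smul_dotProduct, zero_dotProduct] at h1
    rw [LinearMap.sum_apply, LinearMap.zero_apply]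
    rw [← h1]
    rfl
  · set T := ∑ v ∈ U, (Matrix.vecMulVec (a v 0) (a v 1) - Matrix.vecMulVec (a v 1) (a v 0))
      with hT
    have hker : LinearMap.ker (form U a') ≤ LinearMap.ker T.mulVecLin := by
      intro x hx
      have hx' : form U a' x = 0 := hx
      rw [LinearMap.mem_ker, Matrix.mulVecLin_apply]
      ext k
      have h1 : form U a' x (Pi.single k 1) = 0 := by rw [hx']; rfl
      rw [form_apply] at h1
      simp only [ha', dotProduct_single, mul_one] at h1
      rw [hT, Matrix.sum_mulVec, Finset.sum_apply, Pi.zero_apply, ← neg_eq_zero, ← h1,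
        ← Finset.sum_neg_distrib]
      refine Finset.sum_congr rfl fun v _ => ?_
      rw [Matrix.sub_mulVec, Matrix.vecMulVec_mulVec, Matrix.vecMulVec_mulVec]
      simp
    have h1 := LinearMap.finrank_range_add_finrank_ker T.mulVecLin
    have h2 := Submodule.finrank_mono hker
    have h3 : T.rank = finrank K (LinearMap.range T.mulVecLin) := rfl
    omega

theorem parity_lower {K m ι : Type} [Field K] [Fintype m] [DecidableEq m] [DecidableEq ι]
    (Z : Finset ι) (a : ι → Fin 2 → m → K)
    (h : LinearIndependent K (fun i : Z × Fin 2 => a i.1 i.2)) :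
    (∑ v ∈ Z, (Matrix.vecMulVec (a v 0) (a v 1) -
        Matrix.vecMulVec (a v 1) (a v 0))).rank = 2 * Z.card := by
  classical
  set A : Matrix m (Z × Fin 2) K := Matrix.of fun i z => a z.1 z.2 i with hA
  set B : Matrix (Z × Fin 2) m K := Matrix.of fun z i =>
    if z.2 = 0 then a z.1 1 i else - a z.1 0 i with hB
  have hT : (∑ v ∈ Z, (Matrix.vecMulVec (a v 0) (a v 1) -
        Matrix.vecMulVec (a v 1) (a v 0))) = A * B := by
    ext i j
    rw [Matrix.sum_apply, Matrix.mul_apply, Fintype.sum_prod_type, ← Finset.sum_coe_sort Z]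
    refine Finset.sum_congr rfl fun v _ => ?_
    rw [Fin.sum_univ_two]
    simp [hA, hB, Matrix.vecMulVec_apply, sub_eq_add_neg]
  have hAc : LinearIndependent K A.col := h
  have hBr : LinearIndependent K B.row := by
    rw [Fintype.linearIndependent_iff] at h ⊢
    intro g hg
    have h1 := h (fun z => if z.2 = 0 then - g (z.1, 1) else g (z.1, 0)) (by
      rw [← hg, Fintype.sum_prod_type, Fintype.sum_prod_type]
      refine Finset.sum_congr rfl fun v _ => ?_
      rw [Fin.sum_univ_two, Fin.sum_univ_two]
      ext i
      simp [hB, Matrix.row]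
      ring)
    rintro ⟨v, j⟩
    fin_cases j
    · have := h1 (v, 1)
      simpa using this
    · have := h1 (v, 0)
      simpa using this
  rw [hT]
  have hinj : Function.Injective A.mulVecLin := by
    have := Matrix.mulVec_injective_iff.mpr hAc
    exact this
  have hr : B.rank = Fintype.card (Z × Fin 2) := hBr.rank_matrix
  have h1 : (A * B).rank = B.rank := by
    have e1 : (A * B).rank = finrank K (LinearMap.range (A * B).mulVecLin) := rfl
    have e2 : B.rank = finrank K (LinearMap.range B.mulVecLin) := rfl
    rw [e1, e2, Matrix.mulVecLin_mul, LinearMap.range_comp]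
    exact (LinearEquiv.finrank_eq (Submodule.equivMapOfInjective A.mulVecLin hinj
      (LinearMap.range B.mulVecLin))).symm
  rw [h1, hr, Fintype.card_prod, Fintype.card_coe, Fintype.card_fin, mul_comm]

end Pool.Agent.Helper36.Pin
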