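import Pool.Agent.Helper36.Pin.Defs2

/-!
# A generic framework, for MP_35f203_lc
-/

namespace Pool.Agent.Helper36.Pin

open Finset Module

variable {V : Type} [Fintype V] [DecidableEq V]

namespace ModC3

theorem gram_iff {m n : Type} [Fintype m] [Fintype n] [DecidableEq m] (M : Matrix m n ℚ) :
    (M * M.transpose).det ≠ 0 ↔ LinearIndependent ℚ (fun i => M i) := by
  have key : (M * M.transpose).det ≠ 0 ↔
      ∀ v : m → ℚ, Matrix.vecMul v M = 0 → v = 0 := by
    constructor
    · intro h v hv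
      by_contra hne
      apply h
      rw [← Matrix.exists_vecMul_eq_zero_iff]
      exact ⟨v, hne, by rw [← Matrix.vecMul_vecMul, hv, Matrix.zero_vecMul]⟩
    · intro h hd
      rw [← Matrix.exists_vecMul_eq_zero_iff] at hd
      obtain ⟨v, hne, hv⟩ := hd
      apply hne
      apply h
      have h1 : (Matrix.vecMul v M) ⬝ᵥ (Matrix.vecMul v M) = 0 := by
        have h2 : Matrix.vecMul v (M * M.transpose) ⬝ᵥ v = 0 := by rw [hv, zero_dotProduct]
        rw [← Matrix.vecMul_vecMul, ← Matrix.dotProduct_mulVec, Matrix.mulVec_transpose] at h2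
        exact h2
      exact dotProduct_self_eq_zero.mp h1
  rw [key, Fintype.linearIndependent_iff]
  have h1 : ∀ v : m → ℚ, Matrix.vecMul v M = ∑ i, v i • M i := by
    intro v
    ext j
    simp [Matrix.vecMul, dotProduct, Finset.sum_apply]
  constructor
  · intro h g hg i
    have := h g (by rw [h1]; exact hg)
    rw [this]; rfl
  · intro h v hv
    ext i
    exact h v (by rw [← h1]; exact hv) i

open MvPolynomial in
theorem exists_generic_of (hl : ∀ F : Finset (Sym2 V), Sparse F →
    ∃ p : V → Fin 2 → ℚ, LinearIndependent ℚ (fun e : F => rowE p e)) :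
    ∃ p : V → Fin 2 → ℚ, ∀ F : Finset (Sym2 V), Sparse F →
      LinearIndependent ℚ (fun e : F => rowE p e) := by
  classical
  let P : V → Fin 2 → MvPolynomial (V × Fin 2) ℚ := fun v i => X (v, i)
  let M : ∀ F : Finset (Sym2 V), Matrix F (V × Fin 2) (MvPolynomial (V × Fin 2) ℚ) :=
    fun F e => row P (Quot.out e.1).1 (Quot.out e.1).2
  let g : Finset (Sym2 V) → MvPolynomial (V × Fin 2) ℚ := fun F => (M F * (M F).transpose).det
  have hM : ∀ (p : V → Fin 2 → ℚ) (F : Finset (Sym2 V)),
      (M F).map (eval fun u : V × Fin 2 => p u.1 u.2) = Matrix.of fun e : F => rowE p e := by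
    intro p F
    ext e u
    simp only [M, P, Matrix.map_apply, Matrix.of_apply, rowE, row, map_mul, map_sub, eval_X]
    congr 1
    congr 1 <;> split_ifs <;> simp
  have hg : ∀ (p : V → Fin 2 → ℚ) (F : Finset (Sym2 V)),
      eval (fun u : V × Fin 2 => p u.1 u.2) (g F) ≠ 0 ↔
        LinearIndependent ℚ (fun e : F => rowE p e) := by
    intro p F
    have h1 : eval (fun u : V × Fin 2 => p u.1 u.2) (g F) =
        ((Matrix.of fun e : F => rowE p e) * (Matrix.of fun e : F => rowE p e).transpose).det := by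
      simp only [g]
      rw [RingHom.map_det, RingHom.mapMatrix_apply, Matrix.map_mul, ← hM, Matrix.transpose_map]
    rw [h1, gram_iff]
    rfl
  have hg0 : ∀ F : Finset (Sym2 V), Sparse F → g F ≠ 0 := by
    intro F hF h0
    obtain ⟨p, hp⟩ := hl F hF
    rw [← hg p F, h0] at hp
    simp at hp
  have hprod : (∏ F ∈ Finset.univ.filter (fun F : Finset (Sym2 V) => Sparse F), g F) ≠ 0 := by
    rw [Finset.prod_ne_zero_iff]
    intro F hF
    exact hg0 F (Finset.mem_filter.mp hF).2
  obtain ⟨x, hx⟩ : ∃ x : V × Fin 2 → ℚ,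
      eval x (∏ F ∈ Finset.univ.filter (fun F : Finset (Sym2 V) => Sparse F), g F) ≠ 0 := by
    by_contra hcon
    push Not at hcon
    exact hprod (MvPolynomial.funext fun x => by rw [hcon x, map_zero])
  refine ⟨fun v i => x (v, i), fun F hF => ?_⟩
  rw [← hg]
  intro h
  apply hx
  rw [map_prod]
  exact Finset.prod_eq_zero (Finset.mem_filter.mpr ⟨Finset.mem_univ F, hF⟩) h

theorem exists_sparse (F : Finset (Sym2 V)) : ∃ I ⊆ F, Sparse I ∧ I.card = rk F := by
  classical
  have hne : (F.powerset.filter (fun I => Sparse I)).Nonempty := by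
    refine ⟨∅, ?_⟩
    rw [Finset.mem_filter]
    refine ⟨Finset.empty_mem_powerset F, ?_, ?_⟩
    · intro e he
      exact absurd he (Finset.notMem_empty e)
    · intro X hX
      simp
      omega
  obtain ⟨I, hI, hI2⟩ := Finset.exists_mem_eq_sup _ hne Finset.card
  rw [Finset.mem_filter, Finset.mem_powerset] at hI
  refine ⟨I, hI.1, hI.2, ?_⟩
  rw [← hI2]
  unfold rk
  congr

theorem exists_generic_rk_of (hl : ∀ F : Finset (Sym2 V), Sparse F →
    ∃ p : V → Fin 2 → ℚ, LinearIndependent ℚ (fun e : F => rowE p e))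
    (hr : ∀ (p : V → Fin 2 → ℚ) (F : Finset (Sym2 V)),
      finrank ℚ (Submodule.span ℚ (rowE p '' (F : Set (Sym2 V)))) ≤ rk F) :
    ∃ p : V → Fin 2 → ℚ, ∀ F : Finset (Sym2 V),
      finrank ℚ (Submodule.span ℚ (rowE p '' (F : Set (Sym2 V)))) = rk F := by
  classical
  obtain ⟨p, hp⟩ := exists_generic_of hl
  refine ⟨p, fun F => le_antisymm (hr p F) ?_⟩
  obtain ⟨I, hIF, hI, hc⟩ := exists_sparse F
  rw [← hc]
  have h1 := hp I hI
  have h2 : finrank ℚ (Submodule.span ℚ (Set.range (fun e : I => rowE p e))) =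
      Fintype.card I := finrank_span_eq_card h1
  rw [Fintype.card_coe] at h2
  rw [← h2]
  apply Submodule.finrank_mono
  apply Submodule.span_mono
  rintro _ ⟨e, rfl⟩
  exact ⟨e.1, hIF e.2, rfl⟩

end ModC3

end Pool.Agent.Helper36.Pin
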