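import Pool.Agent.Helper36.Pin.Defs2
import Pool.Agent.Helper37.Pin.ModC3
import Pool.Agent.Helper22.Pin.C1
import Pool.Agent.Helper22.Pin.C2

/-!
# A generic framework, for MP_35f203_lc: the final form
-/

namespace Pool.Agent.Helper36.Pin

open Finset Module

variable {V : Type} [Fintype V] [DecidableEq V]

theorem exists_generic : ∃ p : V → Fin 2 → ℚ, ∀ F : Finset (Sym2 V), Sparse F →
    LinearIndependent ℚ (fun e : F => rowE p e) :=
  ModC3.exists_generic_of laman

theorem exists_generic_rk : ∃ p : V → Fin 2 → ℚ, ∀ F : Finset (Sym2 V),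
    finrank ℚ (Submodule.span ℚ (rowE p '' (F : Set (Sym2 V)))) = rk F :=
  ModC3.exists_generic_rk_of laman finrank_rows_le

end Pool.Agent.Helper36.Pin
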