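import Pool.Agent.Helper36.Pin.Defs2
import Pool.Agent.Helper37.Pin.ModB
import Pool.Agent.Helper22.Pin.C1

/-!
# Upper bound for the rank of the matrix `T`, for MP_35f203_lc
-/

namespace Pool.Agent.Helper36.Pin

open Finset Module

variable {V : Type} [Fintype V] [DecidableEq V]

namespace ModN1

theorem row_swap (p : V → Fin 2 → ℚ) (v w : V) : row p v w = row p w v := by
  ext u
  unfold row
  ring

theorem rowE_mk' (p : V → Fin 2 → ℚ) (v w : V) : rowE p s(v, w) = row p v w := by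
  unfold rowE
  have h : s((Quot.out s(v, w)).1, (Quot.out s(v, w)).2) = s(v, w) := Quot.out_eq _
  rw [Sym2.eq_iff] at h
  rcases h with ⟨h1, h2⟩ | ⟨h1, h2⟩
  · rw [h1, h2]
  · rw [h1, h2, row_swap]

/-- `fn` as a linear map -/
noncomputable def fnL (ω : Var V → ℚ) : (V × Fin 2 → ℚ) →ₗ[ℚ] ℚ where
  toFun := fn ω
  map_add' x y := by
    unfold fn
    rw [← Finset.sum_add_distrib]
    exact Finset.sum_congr rfl fun u _ => by rw [Pi.add_apply]; ring
  map_smul' c x := by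
    unfold fn
    rw [RingHom.id_apply, smul_eq_mul, Finset.mul_sum]
    exact Finset.sum_congr rfl fun u _ => by rw [Pi.smul_apply, smul_eq_mul]; ring

theorem fnL_apply (ω : Var V → ℚ) (x : V × Fin 2 → ℚ) : fnL ω x = fn ω x := rfl

theorem bv_mem (G : SimpleGraph V) (ω : Var V → ℚ) (S : Finset V) (v : V) (hv : v ∈ S)
    (j k : Fin 2) :
    bv G ω v j k ∈ Submodule.span ℚ (rowE (pt ω) '' (inc G S : Set (Sym2 V))) := by
  unfold bv
  refine Submodule.sum_mem _ fun w hw => Submodule.smul_mem _ _ (Submodule.subset_span ?_)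
  refine ⟨s(v, w), ?_, rowE_mk' _ v w⟩
  have hw' : G.Adj v w := by simpa using hw
  exact mem_inc_mk.2 ⟨hw', Or.inl hv⟩

theorem yv_mem (G : SimpleGraph V) (ω : Var V → ℚ) (S : Finset V) (v : V) (hv : v ∈ S)
    (j : Fin 2) :
    yv G ω v j ∈ Submodule.span ℚ (rowE (pt ω) '' (inc G S : Set (Sym2 V))) := by
  unfold yv
  exact Submodule.sub_mem _ (Submodule.smul_mem _ _ (bv_mem G ω S v hv j 0))
    (Submodule.smul_mem _ _ (bv_mem G ω S v hv j 1))

theorem fn_yv (G : SimpleGraph V) (ω : Var V → ℚ) (v : V) (j : Fin 2) :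
    fnL ω (yv G ω v j) = 0 := by
  unfold yv
  rw [map_sub, map_smul, map_smul, fnL_apply, fnL_apply, smul_eq_mul, smul_eq_mul]
  ring

theorem T_upper_of (hr : ∀ (p : V → Fin 2 → ℚ) (F : Finset (Sym2 V)),
      finrank ℚ (Submodule.span ℚ (rowE p '' (F : Set (Sym2 V)))) ≤ rk F)
    (G : SimpleGraph V) (U : Finset V) (ω : Var V → ℚ) :
    ∃ Z ⊆ U, FeasA G Z ∧ (T G U ω).rank ≤ 2 * Z.card := by
  classical
  obtain ⟨Z, hZU, hI, hrk⟩ := parity_upper U (fun v j => yv G ω v j)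
  refine ⟨Z, hZU, ?_, hrk⟩
  intro S hSZ hS
  set L : Submodule ℚ (V × Fin 2 → ℚ) :=
    Submodule.span ℚ (rowE (pt ω) '' (inc G S : Set (Sym2 V))) with hL
  refine le_trans ?_ (hr (pt ω) (inc G S))
  rw [← hL]
  -- the vectors at `S` are independent
  have hIS : LinearIndependent ℚ (fun i : S × Fin 2 => yv G ω i.1 i.2) := by
    have := hI.comp (fun i : S × Fin 2 => ((⟨i.1.1, hSZ i.1.2⟩ : Z), i.2)) (by
      rintro ⟨⟨v, hv⟩, j⟩ ⟨⟨w, hw⟩, k⟩ h
      simp only [Prod.mk.injEq, Subtype.mk.injEq] at h ⊢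
      exact h)
    exact this
  have h1 : finrank ℚ (Submodule.span ℚ (Set.range fun i : S × Fin 2 => yv G ω i.1 i.2)) =
      2 * S.card := by
    rw [finrank_span_eq_card hIS, Fintype.card_prod, Fintype.card_coe, Fintype.card_fin, mul_comm]
  have h2 : Submodule.span ℚ (Set.range fun i : S × Fin 2 => yv G ω i.1 i.2) ≤
      L ⊓ LinearMap.ker (fnL ω) := by
    rw [Submodule.span_le]
    rintro _ ⟨i, rfl⟩
    exact ⟨yv_mem G ω S i.1 i.1.2 i.2, fn_yv G ω i.1 i.2⟩
  have h3 : L ⊓ LinearMap.ker (fnL ω) < L := by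
    refine lt_of_le_of_ne inf_le_left fun h => ?_
    obtain ⟨v, hv⟩ := hS
    have h4 : ∀ j k, fn ω (bv G ω v j k) = 0 := by
      intro j k
      have h5 : bv G ω v j k ∈ L := bv_mem G ω S v hv j k
      rw [← h] at h5
      exact h5.2
    have h6 : yv G ω v 0 = 0 := by
      unfold yv
      rw [h4, h4, zero_smul, zero_smul, sub_zero]
    exact hIS.ne_zero (⟨⟨v, hv⟩, 0⟩ : S × Fin 2) h6
  have h4 := Submodule.finrank_lt_finrank_of_lt h3
  have h5 := Submodule.finrank_mono h2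
  omega

end ModN1

theorem T_upper (G : SimpleGraph V) (U : Finset V) (ω : Var V → ℚ) :
    ∃ Z ⊆ U, FeasA G Z ∧ (T G U ω).rank ≤ 2 * Z.card :=
  ModN1.T_upper_of (fun p F => finrank_rows_le p F) G U ω

end Pool.Agent.Helper36.Pin
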