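import Pool.Agent.Helper36.Pin.H
import Pool.Agent.Helper37.Pin.ModI

/-!
# `gr_iff`, for MP_35f203_lc: the final form
-/

namespace Pool.Agent.Helper36.Pin

open Finset

variable {V : Type} [Fintype V] [DecidableEq V]

theorem gr_iff (H : SimpleGraph V) (X P : Finset V) (hX : 4 ≤ X.card) (hPX : P ⊆ X)
    (hP : P.card = 2 ∨ 4 ≤ P.card) (hK : ∀ u ∈ P, ∀ v ∈ P, u ≠ v → H.Adj u v)
    (hcl : ∀ u ∈ X \ P, ∀ v, H.Adj u v → v ∈ X) :
    GR H X ↔ ∀ S ⊆ X \ P, S.Nonempty →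
      2 * S.card + 1 ≤ rk (inc H S) ∧ (S ∪ nbr H S = X ∨ 3 ≤ (nbr H S).card) :=
  gr_iff_of tight_false H X P hX hPX hP hK hcl

end Pool.Agent.Helper36.Pin
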